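import Pool.Agent.helper18.WS.Main
import Pool.Agent.helper18.WS.QEx
import Pool.Agent.helper18.WS.QTorus

open CategoryTheory TopologicalSpace
open scoped Manifold ContDiff

set_option backward.isDefEq.respectTransparency false
set_option backward.isDefEq.respectTransparency.types false

universe w

namespace Pool.Agent.Results.MP_cd96da_ag.Aspherical

/-- Negative answer to the question, unconditionally, for all compact connected complex manifolds
covered by `ℝᵐ`, in particular for all complex tori.

First part: let `M` be a compact connected complex manifold (modelled on the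
finite-dimensional complex normed space `E`) with a covering map `p : ℝᵐ → M` with infinite
fibres. Then for every point `x` of `M` the wrapped skyscraper sheaf at `x` exists, i.e. there is
a morphism `η : ℂ_x ⟶ W` in the derived category of sheaves on `M` which is universal for
morphisms from `ℂ_x` to objects with locally constant cohomology sheaves, and the
wrapped skyscraper sheaf `W` is not the colimit of any inductive system `K₀ ⟶ K₁ ⟶ K₂ ⟶ ⋯` of
`ℂ`-constructible objects.

Second part: if `E ≠ 0` is a finite-dimensional complex vector space and `Λ ⊆ E` is a lattice then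
the complex torus `M = E ⧸ Λ` is a compact connected complex manifold which has such a covering
map, so that the first part applies to it.

Third part: the Gaussian integers are a lattice in `ℂ`. -/
theorem result :
    (∀ {E : Type} [NormedAddCommGroup E] [NormedSpace ℂ E] [FiniteDimensional ℂ E]
      {M : Type} [TopologicalSpace M] [CompactSpace M] [T2Space M] [ConnectedSpace M]
      [ChartedSpace E M] [IsManifold 𝓘(ℂ, E) ω M] [HasDerivedCategory.{w} (WS.Sh M)]
      {m : ℕ} (p : (Fin m → ℝ) → M) (_ : IsCoveringMap p)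
      (_ : ∀ y, (p ⁻¹' {y}).Infinite) (x : M),
      (∃ (W : DerivedCategory (WS.Sh M)) (η : WS.skyD x ⟶ W), WS.IsWrapping x W η) ∧
      ∀ (W : DerivedCategory (WS.Sh M)) (η : WS.skyD x ⟶ W), WS.IsWrapping x W η →
        ¬ ∃ K : ℕ ⥤ DerivedCategory (WS.Sh M),
          (∀ n, WS.IsCConstructible E (K.obj n)) ∧ WS.IsSeqColimit K W) ∧
    (∀ {E : Type} [NormedAddCommGroup E] [NormedSpace ℂ E] [FiniteDimensional ℂ E]
      [Nontrivial E] (Λ : AddSubgroup E) (h : WS.IsLattice Λ),
      letI : ChartedSpace E (E ⧸ Λ) := h.charts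
      CompactSpace (E ⧸ Λ) ∧ T2Space (E ⧸ Λ) ∧ ConnectedSpace (E ⧸ Λ) ∧
        IsManifold 𝓘(ℂ, E) ω (E ⧸ Λ) ∧
        ∃ (m : ℕ) (p : (Fin m → ℝ) → E ⧸ Λ), IsCoveringMap p ∧ ∀ y, (p ⁻¹' {y}).Infinite) ∧
    WS.IsLattice WS.gauss := by
  refine ⟨?_, ?_, WS.gauss_isLattice⟩
  · intro E _ _ _ M _ _ _ _ _ _ _ m p hp hinf x
    have : LocallyConnectedSpace M := ChartedSpace.locallyConnectedSpace E M
    refine ⟨WS.exists_wrapping hp (fun y => (hinf y).nonempty.to_subtype) x, ?_⟩
    rintro W η hW ⟨K, hK, hKW⟩
    have : IsManifold 𝓘(ℂ, E) 1 M := IsManifold.of_le (n := ω) le_top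
    exact WS.main_aux hp hinf hW K (fun n j => (hK n).2 j) hKW
  · intro E _ _ _ _ Λ h
    have i1 : CompactSpace (E ⧸ Λ) := h.cocompact
    have i2 : T2Space (E ⧸ Λ) := h.t2
    let _ := h.charts
    have i3 : IsManifold 𝓘(ℂ, E) ω (E ⧸ Λ) := h.isManifold
    have : ConnectedSpace E := inferInstance
    have i4 : ConnectedSpace (E ⧸ Λ) :=
      (QuotientAddGroup.mk_surjective (s := Λ)).connectedSpace h.isCoveringMap.continuous
    exact ⟨i1, i2, i4, i3, h.exists_covering_infinite⟩

end Pool.Agent.Results.MP_cd96da_ag.Aspherical
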