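import Pool.Agent.helper18.WS.Main

open CategoryTheory TopologicalSpace
open scoped Manifold ContDiff

set_option backward.isDefEq.respectTransparency false
set_option backward.isDefEq.respectTransparency.types false

universe w

namespace Pool.Agent.Results.MP_cd96da_ag.InfinitePi1

/-- Negative answer to the question for all compact complex manifolds with infinite fundamental
group. Let `M` be a compact connected complex manifold modelled on the finite-dimensional complex
normed space `E`, let `p : N → M` be a covering map with `N` connected and infinite fibres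
(for example the universal covering, if `π₁(M)` is infinite), let `x` be any point of `M` and let
`η : ℂ_x ⟶ W` exhibit `W` as the wrapped skyscraper sheaf at `x`. Then `W` is not isomorphic
to the colimit of any inductive system `K₀ ⟶ K₁ ⟶ K₂ ⟶ ⋯` of `ℂ`-constructible objects. -/
theorem result {E : Type} [NormedAddCommGroup E] [NormedSpace ℂ E] [FiniteDimensional ℂ E]
    {M : Type} [TopologicalSpace M] [CompactSpace M] [T2Space M] [ConnectedSpace M]
    [ChartedSpace E M] [IsManifold 𝓘(ℂ, E) ω M] [HasDerivedCategory.{w} (WS.Sh M)]
    {N : Type} [TopologicalSpace N] [ConnectedSpace N] (p : N → M) (hp : IsCoveringMap p)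
    (hinf : ∀ y, (p ⁻¹' {y}).Infinite) (x : M) (W : DerivedCategory (WS.Sh M))
    (η : WS.skyD x ⟶ W) (hW : WS.IsWrapping x W η) :
    ¬ ∃ K : ℕ ⥤ DerivedCategory (WS.Sh M),
      (∀ n, WS.IsCConstructible E (K.obj n)) ∧ WS.IsSeqColimit K W := by
  rintro ⟨K, hK, hKW⟩
  have : IsManifold 𝓘(ℂ, E) 1 M := IsManifold.of_le (n := ω) le_top
  exact WS.main_aux hp hinf hW K (fun n j => (hK n).2 j) hKW

end Pool.Agent.Results.MP_cd96da_ag.InfinitePi1
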